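import Pool.Agent.W92.ET.Base

set_option autoImplicit false

namespace Pool.Agent.W337.ET

open Pool.Agent.W92.ET

theorem pairs_sum (A : Finset ℕ) (N : ℕ) (hA : ∀ a ∈ A, 1 ≤ a ∧ a ≤ N) (F : ℕ → ℕ → ℝ) :
    ∑ x ∈ Pr A, F x.1 x.2 = ∑ d ∈ Finset.Icc 1 N, ∑ b ∈ Bd A d, F b (b + d) := by
  rw [Finset.sum_sigma' (Finset.Icc 1 N) (fun d => Bd A d) (fun d b => F b (b + d))]
  refine Finset.sum_bij' (fun x _ => (⟨x.2 - x.1, x.1⟩ : Σ _ : ℕ, ℕ))
    (fun y _ => (y.2, y.2 + y.1)) ?_ ?_ ?_ ?_ ?_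
  · intro x hx
    simp only [Pr, Finset.mem_filter, Finset.mem_product] at hx
    obtain ⟨⟨h1, h2⟩, h3⟩ := hx
    have h4 := hA _ h1
    have h5 := hA _ h2
    simp only [Finset.mem_sigma, Finset.mem_Icc, Bd, Finset.mem_filter]
    refine ⟨⟨by omega, by omega⟩, h1, ?_⟩
    have : x.1 + (x.2 - x.1) = x.2 := by omega
    rw [this]
    exact h2
  · intro y hy
    simp only [Finset.mem_sigma, Finset.mem_Icc, Bd, Finset.mem_filter] at hy
    obtain ⟨⟨h1, h2⟩, h3, h4⟩ := hy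
    simp only [Pr, Finset.mem_filter, Finset.mem_product]
    exact ⟨⟨h3, h4⟩, by omega⟩
  · intro x hx
    simp only [Pr, Finset.mem_filter, Finset.mem_product] at hx
    obtain ⟨⟨h1, h2⟩, h3⟩ := hx
    apply Prod.ext
    · rfl
    · simp only
      omega
  · intro y hy
    simp only [Nat.add_sub_cancel_left]
  · intro x hx
    simp only [Pr, Finset.mem_filter, Finset.mem_product] at hx
    obtain ⟨⟨h1, h2⟩, h3⟩ := hx
    have : x.1 + (x.2 - x.1) = x.2 := by omega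
    simp only [this]

theorem energy (h : S_psd) : S_energy := by
  intro A N hA β
  have h1 : ∑ x ∈ Pr A, 1 / ((x.2 : ℝ) - x.1) * HH (((x.1 : ℝ) + x.2) / (x.2 - x.1))
      = ∑ d ∈ Finset.Icc 1 N, ∑ b ∈ Bd A d, 1 / (d : ℝ) * HH ((2 * b + d) / d) := by
    rw [pairs_sum A N hA (fun a b => 1 / ((b : ℝ) - a) * HH (((a : ℝ) + b) / (b - a)))]
    refine Finset.sum_congr rfl fun d _ => Finset.sum_congr rfl fun b _ => ?_
    have e1 : ((b + d : ℕ) : ℝ) - b = d := by push_cast; ring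
    have e2 : (b : ℝ) + ((b + d : ℕ) : ℝ) = 2 * b + d := by push_cast; ring
    rw [e1, e2]
  rw [h1]
  have h2 : ∀ d ∈ Finset.Icc 1 N, 2 * β * ∑ b ∈ Bd A d, 1 / (d : ℝ) * HH ((2 * b + d) / d)
      - β ^ 2 * EE * (1 / (d : ℝ)) ≤ ∑ b ∈ Bd A d, ∑ b' ∈ Bd A d,
        1 / (d : ℝ) * kk ((2 * b + d) / d) ((2 * b' + d) / d) := by
    intro d hd
    rw [Finset.mem_Icc] at hd
    have hd0 : (0 : ℝ) < d := by exact_mod_cast hd.1
    have h3 := h (Bd A d) (fun b => (2 * (b : ℝ) + d) / d) β (by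
      intro b _
      rw [le_div_iff₀ hd0]
      have : (0 : ℝ) ≤ b := Nat.cast_nonneg b
      linarith)
    have h4 := mul_le_mul_of_nonneg_left h3 (one_div_pos.2 hd0).le
    have h5 : ∑ b ∈ Bd A d, ∑ b' ∈ Bd A d,
        1 / (d : ℝ) * kk ((2 * b + d) / d) ((2 * b' + d) / d)
        = 1 / (d : ℝ) * ∑ b ∈ Bd A d, ∑ b' ∈ Bd A d,
          kk ((2 * b + d) / d) ((2 * b' + d) / d) := by
      rw [Finset.mul_sum]
      refine Finset.sum_congr rfl fun b _ => ?_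
      rw [Finset.mul_sum]
    have h6 : ∑ b ∈ Bd A d, 1 / (d : ℝ) * HH ((2 * b + d) / d)
        = 1 / (d : ℝ) * ∑ b ∈ Bd A d, HH ((2 * b + d) / d) := by
      rw [Finset.mul_sum]
    rw [h5, h6]
    simp only [mul_zero] at h4
    nlinarith [h4]
  have h7 := Finset.sum_le_sum h2
  rw [Finset.sum_sub_distrib, ← Finset.mul_sum, ← Finset.mul_sum] at h7
  exact h7

end Pool.Agent.W337.ET
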